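import Pool.Agent.helper71.EP.SpecE

/-! ep:ECM. The lower bound for the model count. -/

set_option autoImplicit false

open Finset
open scoped Real
open Pool.Agent.helper74.TG

noncomputable section

namespace Pool.Agent.EP

theorem ECM_Yt_low (m t : ℕ) (ht : 1 ≤ t) : 3 * (m : ℝ) * (t : ℝ) ^ 2 / 4 ≤ (Yt m t : ℝ) := by
  have h1 : 3 * m * t ^ 2 ≤ 4 * Yt m t := by
    unfold Yt hq
    set A := 3 * m * t ^ 2
    omega
  have h2 : 3 * (m : ℝ) * (t : ℝ) ^ 2 ≤ 4 * (Yt m t : ℝ) := by exact_mod_cast h1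
  linarith

theorem ECM_Yt_up (m T : ℕ) (hm : 24 ≤ m) (hT : 1 ≤ T) : (Yt m T : ℝ) ≤ m * (T : ℝ) ^ 2 := by
  have h1 : 4 * Yt m T ≤ 3 * m * T ^ 2 + 6 * T := by
    unfold Yt hq
    omega
  have h2 : 4 * (Yt m T : ℝ) ≤ 3 * m * (T : ℝ) ^ 2 + 6 * T := by exact_mod_cast h1
  have h3 : (1 : ℝ) ≤ T := by exact_mod_cast hT
  have h4 : (24 : ℝ) ≤ m := by exact_mod_cast hm
  have h5 : 6 * (T : ℝ) ≤ m * (T : ℝ) ^ 2 := by nlinarith
  linarith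

theorem ECM_sum (T : ℕ) : (T : ℝ) ^ 3 ≤ ∑ t ∈ Ioc 0 T, 3 * (t : ℝ) ^ 2 := by
  induction T with
  | zero => simp
  | succ T ih =>
    rw [Finset.sum_Ioc_succ_top (Nat.zero_le T)]
    push_cast
    have h0 : (0 : ℝ) ≤ T := Nat.cast_nonneg T
    nlinarith

theorem ECM_sumY (m T : ℕ) : (m : ℝ) * (T : ℝ) ^ 3 / 4 ≤ ∑ t ∈ Ioc 0 T, (Yt m t : ℝ) := by
  have h1 : ∑ t ∈ Ioc 0 T, (m : ℝ) / 4 * (3 * (t : ℝ) ^ 2) ≤ ∑ t ∈ Ioc 0 T, (Yt m t : ℝ) := by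
    apply Finset.sum_le_sum
    intro t ht
    have := ECM_Yt_low m t (Finset.mem_Ioc.1 ht).1
    linarith
  rw [← Finset.mul_sum] at h1
  have h2 := mul_le_mul_of_nonneg_left (ECM_sum T) (show (0 : ℝ) ≤ (m : ℝ) / 4 by positivity)
  linarith

theorem ECM_log : ∃ N₀ : ℝ, ∀ x : ℝ, N₀ ≤ x → Real.log x ^ 3072 ≤ x := by
  have h := (Real.isLittleO_pow_log_id_atTop (n := 3072)).bound (show (0 : ℝ) < 1 by norm_num)
  obtain ⟨N, hN⟩ := Filter.eventually_atTop.1 h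
  refine ⟨max N 0, fun x hx => ?_⟩
  have h1 := hN x (le_trans (le_max_left _ _) hx)
  have h2 : 0 ≤ x := le_trans (le_max_right _ _) hx
  rw [one_mul, id, Real.norm_eq_abs, Real.norm_eq_abs, abs_of_nonneg h2] at h1
  exact (le_abs_self _).trans h1

theorem ECM_Q (m : ℕ) (hm : 24 ≤ m) : ∃ T₀ : ℕ, 500 ≤ T₀ ∧ ∀ T : ℕ, T₀ ≤ T →
    1 ≤ ⌊Real.log (hq m T) ^ 96⌋₊ ∧ (⌊Real.log (hq m T) ^ 96⌋₊ : ℝ) ^ 8 ≤ T := by
  obtain ⟨N₀, hN₀⟩ := ECM_log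
  refine ⟨max (max 500 (4 * m)) ⌈N₀⌉₊, le_trans (le_max_left _ _) (le_max_left _ _), ?_⟩
  intro T hT
  have hT1 : 500 ≤ T := le_trans (le_trans (le_max_left _ _) (le_max_left _ _)) hT
  have hT2 : 4 * m ≤ T := le_trans (le_trans (le_max_right _ _) (le_max_left _ _)) hT
  have hT3 : ⌈N₀⌉₊ ≤ T := le_trans (le_max_right _ _) hT
  have hT1R : (500 : ℝ) ≤ T := by exact_mod_cast hT1
  have hT2R : 4 * (m : ℝ) ≤ T := by exact_mod_cast hT2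
  have hmR : (24 : ℝ) ≤ m := by exact_mod_cast hm
  have hNeq : (hq m T : ℝ) = 3 * m * (T : ℝ) ^ 2 + 6 * T := by
    unfold hq
    push_cast
    ring
  set N : ℝ := (hq m T : ℝ) with hN
  have hNT : (T : ℝ) ≤ N := by
    rw [hNeq]
    have : 0 ≤ 3 * (m : ℝ) * (T : ℝ) ^ 2 := by positivity
    linarith
  have hN4 : N ≤ 4 * m * (T : ℝ) ^ 2 := by
    rw [hNeq]
    nlinarith
  have hlog1 : 1 ≤ Real.log N := by
    rw [Real.le_log_iff_exp_le (by linarith)]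
    have := Real.exp_one_lt_d9
    linarith
  constructor
  · apply Nat.le_floor
    rw [Nat.cast_one]
    exact one_le_pow₀ hlog1
  · have h1 := hN₀ N (le_trans (le_trans (Nat.le_ceil N₀) (by exact_mod_cast hT3)) hNT)
    have h2 : (⌊Real.log N ^ 96⌋₊ : ℝ) ≤ Real.log N ^ 96 := Nat.floor_le (by positivity)
    have h3 : (⌊Real.log N ^ 96⌋₊ : ℝ) ^ 8 ≤ Real.log N ^ 768 := by
      calc (⌊Real.log N ^ 96⌋₊ : ℝ) ^ 8 ≤ (Real.log N ^ 96) ^ 8 :=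
            pow_le_pow_left₀ (Nat.cast_nonneg _) h2 8
        _ = Real.log N ^ 768 := by rw [← pow_mul]
    refine h3.trans ?_
    by_contra hlt
    push Not at hlt
    have h4 : (T : ℝ) ^ 4 < (Real.log N ^ 768) ^ 4 :=
      pow_lt_pow_left₀ hlt (by positivity) (by norm_num)
    have h5 : (Real.log N ^ 768) ^ 4 = Real.log N ^ 3072 := by rw [← pow_mul]
    rw [h5] at h4
    have h6 : (T : ℝ) ^ 4 < 4 * m * (T : ℝ) ^ 2 := by linarith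
    have h7 : 4 * (m : ℝ) * (T : ℝ) ^ 2 ≤ T * (T : ℝ) ^ 2 :=
      mul_le_mul_of_nonneg_right hT2R (by positivity)
    have h8 : (T : ℝ) * (T : ℝ) ^ 2 ≤ (T : ℝ) ^ 4 := by
      have h9 : (T : ℝ) ^ 4 = T * (T * (T : ℝ) ^ 2) := by ring
      rw [h9]
      apply mul_le_mul_of_nonneg_left _ (by linarith)
      have : 0 ≤ (T : ℝ) ^ 2 := by positivity
      nlinarith
    linarith

theorem ECM (hEMC : EMC_stmt) : ECM_stmt := by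
  intro m hm h24 hp
  have hm24 : 24 ≤ m := Nat.le_of_dvd hm h24
  have hmR : (24 : ℝ) ≤ m := by exact_mod_cast hm24
  have h6 : 6 ∣ m := dvd_trans (by norm_num) h24
  obtain ⟨T₀, hT₀, hQ⟩ := ECM_Q m hm24
  refine ⟨T₀, fun T hT => ?_⟩
  have hT500 : 500 ≤ T := hT₀.trans hT
  have hTR : (500 : ℝ) ≤ T := by exact_mod_cast hT500
  obtain ⟨hQ1, hQ8⟩ := hQ T hT
  set Q : ℕ := ⌊Real.log (hq m T) ^ 96⌋₊ with hQdef
  have hmain := hEMC m (m - 1) 1 T Q hm h6 hp hQ1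
  have hY := ECM_Yt_up m T hm24 (by omega)
  have hS := ECM_sumY m T
  have hQ0 : (0 : ℝ) ≤ Q := Nat.cast_nonneg _
  have hQ2 : 100 * (Q : ℝ) ^ 2 ≤ T := by
    by_contra hlt
    push Not at hlt
    have h1 : (T : ℝ) ^ 4 < (100 * (Q : ℝ) ^ 2) ^ 4 :=
      pow_lt_pow_left₀ hlt (by positivity) (by norm_num)
    have h2 : (100 * (Q : ℝ) ^ 2) ^ 4 = 100000000 * (Q : ℝ) ^ 8 := by ring
    have h3 : (T : ℝ) ^ 4 < 100000000 * T := by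
      rw [h2] at h1
      linarith
    have h4 : (500 : ℝ) ^ 3 ≤ (T : ℝ) ^ 3 := pow_le_pow_left₀ (by norm_num) hTR 3
    nlinarith
  have hQ6 : 100 * (Q : ℝ) ^ 6 ≤ (T : ℝ) ^ 2 := by
    by_contra hlt
    push Not at hlt
    have h1 : ((T : ℝ) ^ 2) ^ 4 < (100 * (Q : ℝ) ^ 6) ^ 4 :=
      pow_lt_pow_left₀ hlt (by positivity) (by norm_num)
    have h2 : (100 * (Q : ℝ) ^ 6) ^ 4 = 100000000 * ((Q : ℝ) ^ 8) ^ 3 := by ring
    have h3 : ((Q : ℝ) ^ 8) ^ 3 ≤ (T : ℝ) ^ 3 := pow_le_pow_left₀ (by positivity) hQ8 3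
    have h4 : (T : ℝ) ^ 8 < 100000000 * (T : ℝ) ^ 3 := by
      have h5 : ((T : ℝ) ^ 2) ^ 4 = (T : ℝ) ^ 8 := by ring
      rw [h2, h5] at h1
      linarith
    have h5 : (500 : ℝ) ^ 5 ≤ (T : ℝ) ^ 5 := pow_le_pow_left₀ (by norm_num) hTR 5
    have h6' : (T : ℝ) ^ 8 = (T : ℝ) ^ 5 * (T : ℝ) ^ 3 := by ring
    have h7 : 0 < (T : ℝ) ^ 3 := by positivity
    rw [h6'] at h4
    have h8 := lt_of_mul_lt_mul_right h4 h7.le
    norm_num at h5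
    linarith
  -- the norm of the main term
  have hnorm : (∑ t ∈ Ioc 0 T, (Yt m t : ℝ)) ≤ ‖∑ t ∈ Ioc 0 T, (Yt m t : ℂ)‖ := by
    have h1 : (∑ t ∈ Ioc 0 T, (Yt m t : ℂ)) = ((∑ t ∈ Ioc 0 T, (Yt m t : ℝ) : ℝ) : ℂ) := by
      push_cast
      rfl
    rw [h1, Complex.norm_real, Real.norm_eq_abs]
    exact le_abs_self _
  have htri : ‖∑ t ∈ Ioc 0 T, (Yt m t : ℂ)‖ ≤ ‖RR m T (gm m (m - 1) Q) (gm m 1 Q)‖ +
      ‖RR m T (gm m (m - 1) Q) (gm m 1 Q) - ∑ t ∈ Ioc 0 T, (Yt m t : ℂ)‖ := by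
    have h1 : (∑ t ∈ Ioc 0 T, (Yt m t : ℂ)) = RR m T (gm m (m - 1) Q) (gm m 1 Q) -
        (RR m T (gm m (m - 1) Q) (gm m 1 Q) - ∑ t ∈ Ioc 0 T, (Yt m t : ℂ)) := by ring
    conv_lhs => rw [h1]
    exact norm_sub_le _ _
  have herr : (Yt m T : ℝ) * ((T : ℝ) / 25 + (Q : ℝ) ^ 2) + T * (Q : ℝ) ^ 6 ≤
      m * (T : ℝ) ^ 2 * ((T : ℝ) / 25 + T / 100) + T * (m * (T : ℝ) ^ 2 / 100) := by
    have h1 : (Yt m T : ℝ) * ((T : ℝ) / 25 + (Q : ℝ) ^ 2) ≤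
        m * (T : ℝ) ^ 2 * ((T : ℝ) / 25 + T / 100) := by
      apply mul_le_mul hY _ (by positivity) (by positivity)
      linarith
    have h2 : (T : ℝ) * (Q : ℝ) ^ 6 ≤ T * (m * (T : ℝ) ^ 2 / 100) := by
      apply mul_le_mul_of_nonneg_left _ (by positivity)
      have : (T : ℝ) ^ 2 ≤ m * (T : ℝ) ^ 2 := by
        have : 0 ≤ (T : ℝ) ^ 2 := by positivity
        nlinarith
      linarith
    linarith
  have hfin : m * (T : ℝ) ^ 2 * ((T : ℝ) / 25 + T / 100) + T * (m * (T : ℝ) ^ 2 / 100) =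
      m * (T : ℝ) ^ 3 * (3 / 50) := by ring
  have hpos : 0 ≤ (m : ℝ) * (T : ℝ) ^ 3 := by positivity
  linarith

end Pool.Agent.EP
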